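import Pool.Agent.P.MP_7cb106_nt.QN.Defs
import Pool.Agent.P.MP_7cb106_nt.Q2.AllN

/-! The two descriptions of the completed group algebra agree. -/

set_option autoImplicit false

namespace Pool.Agent.P.MP_7cb106_nt.QN

/-- the identity map -/
noncomputable def eqv (k G : Type) [Field k] [Group G] [TopologicalSpace G] :
    Q2.Iw k G ≃+* Iw k G where
  toFun x := ⟨x.1, x.2⟩
  invFun x := ⟨x.1, x.2⟩
  left_inv _ := rfl
  right_inv _ := rfl
  map_mul' _ _ := rfl
  map_add' _ _ := rfl

theorem eqv_el {k G : Type} [Field k] [Group G] [TopologicalSpace G] (g : G) :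
    eqv k G (Q2.Iw.el k g) = el k g := rfl

theorem eqv_sub {k G : Type} [Field k] [Group G] [TopologicalSpace G] (U : Subgroup G) (S : Set G)
    (hS : ∀ u ∈ U, u ∈ S) (x : Q2.Iw k G) (hx : x ∈ Q2.Iw.sub k U) : eqv k G x ∈ sub k S := by
  intro V q hq
  have h1 := hx V
  change (x.1 V).coeff q ≠ 0 at hq
  generalize x.1 V = y at h1 hq
  by_contra h2
  apply hq
  clear hq
  induction h1 using Submodule.span_induction with
  | mem y hy =>
    obtain ⟨u, hu, rfl⟩ := hy
    have : (u : G ⧸ V.toSubgroup) ≠ q := fun e => h2 ⟨u, hS u hu, e⟩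
    simp [MonoidAlgebra.of, this]
  | zero => simp
  | add a b _ _ ha hb => simp [ha, hb]
  | smul c a _ ha => simp [ha]

theorem control (p : ℕ) [Fact p.Prime] (k : Type) [Field k] [CharP k p]
    (G : Type) [Group G] [TopologicalSpace G] [IsTopologicalGroup G] [CompactSpace G] [T2Space G]
    [TotallyDisconnectedSpace G] (G0 : Subgroup G) (hnormal : G0.Normal)
    (hopen : IsOpen (G0 : Set G)) (hunif : Uniform p G0)
    (hsound : ∀ H : Subgroup G, H ≤ G0 → IsClosed (H : Set G) →
      (∀ g ∈ G0, ∀ x ∈ H, g * x * g⁻¹ ∈ H) → H.normalCore.relIndex H ≠ 0)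
    (P : TwoSidedIdeal (Iw k G)) (hprime : IsPrime P) :
    GenBy P (sub k (Delta (el k) P)) := by
  let e := eqv k G
  let P' : TwoSidedIdeal (Q2.Iw k G) := P.comap (e : Q2.Iw k G →+* Iw k G)
  have hP' : ∀ x, x ∈ P' ↔ e x ∈ P := fun x => TwoSidedIdeal.mem_comap _
  obtain ⟨V, Z, hZ, h1⟩ := Q2.all_FINALQ p k G G0 hnormal hopen hunif.1 hunif.2.1 hunif.2.2.1
    hunif.2.2.2 hsound P'
    (fun h => hprime.1 (P.one_mem_iff.1 (by
      have := (hP' 1).1 (h ▸ TwoSidedIdeal.mem_top _)
      rwa [map_one] at this)))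
    (fun a b h => by
      rw [hP', hP']
      refine hprime.2 _ _ fun x => ?_
      have := (hP' _).1 (h (e.symm x))
      rwa [map_mul, map_mul, e.apply_symm_apply] at this)
  have hD : ∀ g ∈ Z, g ∈ Delta (el k) P := fun g hg => ⟨V, fun u hu => by
    have := (hP' _).1 (hZ g hg u hu)
    rwa [map_sub, map_one] at this⟩
  refine ⟨Set.Subset.antisymm (fun x hx => ?_) fun x hx => ?_,
    Set.Subset.antisymm (fun x hx => ?_) fun x hx => ?_⟩
  · induction hx using Submodule.span_induction with
    | mem x h => exact h.1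
    | zero => exact P.zero_mem
    | add x y _ _ h1 h2 => exact P.add_mem h1 h2
    | smul a x _ h => exact P.mul_mem_right _ _ h
  · obtain ⟨y, rfl⟩ := e.surjective x
    have h3 := (h1 y ((hP' y).2 hx)).1
    clear hx
    induction h3 using Submodule.span_induction with
    | mem x h => exact Submodule.subset_span ⟨(hP' x).1 h.1, eqv_sub Z _ hD x h.2⟩
    | zero => rw [map_zero]; exact Submodule.zero_mem _
    | add x y _ _ h1 h2 => rw [map_add]; exact Submodule.add_mem _ h1 h2
    | smul a x _ h =>
      have : e (a • x) = MulOpposite.op (e a.unop) • e x := map_mul e x a.unop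
      rw [this]; exact Submodule.smul_mem _ _ h
  · induction hx using Submodule.span_induction with
    | mem x h => exact h.1
    | zero => exact P.zero_mem
    | add x y _ _ h1 h2 => exact P.add_mem h1 h2
    | smul a x _ h => exact P.mul_mem_left _ _ h
  · obtain ⟨y, rfl⟩ := e.surjective x
    have h3 := (h1 y ((hP' y).2 hx)).2
    clear hx
    induction h3 using Submodule.span_induction with
    | mem x h => exact Submodule.subset_span ⟨(hP' x).1 h.1, eqv_sub Z _ hD x h.2⟩
    | zero => rw [map_zero]; exact Submodule.zero_mem _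
    | add x y _ _ h1 h2 => rw [map_add]; exact Submodule.add_mem _ h1 h2
    | smul a x _ h =>
      have : e (a • x) = e a • e x := map_mul e a x
      rw [this]; exact Submodule.smul_mem _ _ h

end Pool.Agent.P.MP_7cb106_nt.QN
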