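import Mathlib

/-! Uniform groups and completed group algebras. -/

set_option autoImplicit false

namespace Pool.Agent.P.MP_7cb106_nt.QN

/-- A (profinite) group is uniform pro-`p` if it is pro-`p`, topologically finitely generated,
powerful and torsion-free. -/
def Uniform (p : ℕ) (H : Type) [Group H] [TopologicalSpace H] [IsTopologicalGroup H] : Prop :=
  (∀ V : OpenNormalSubgroup H, IsPGroup p (H ⧸ V.toSubgroup)) ∧
  (∃ S : Finset H, (Subgroup.closure (S : Set H)).topologicalClosure = ⊤) ∧
  commutator H ≤ (Subgroup.closure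
    (Set.range fun x : H => x ^ (if p = 2 then 4 else p))).topologicalClosure ∧
  ∀ x : H, IsOfFinOrder x → x = 1

/-- The compatible families in the product of the group algebras `k[G/V]`, `V` open normal. -/
def Lim (k G : Type) [Field k] [Group G] [TopologicalSpace G] :
    Subring (∀ V : OpenNormalSubgroup G, MonoidAlgebra k (G ⧸ V.toSubgroup)) where
  carrier := {x | ∀ (V W : OpenNormalSubgroup G) (h : V.toSubgroup ≤ W.toSubgroup),
    MonoidAlgebra.mapDomain (Subgroup.quotientMapOfLE h) (x V) = x W}
  mul_mem' := fun {x y} hx hy V W h => by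
    rw [Pi.mul_apply, Pi.mul_apply, ← hx V W h, ← hy V W h]
    exact MonoidAlgebra.mapDomain_mul
      (QuotientGroup.map V.toSubgroup W.toSubgroup (MonoidHom.id G) h) (x V) (y V)
  one_mem' := fun V W h => MonoidAlgebra.mapDomain_one
    (QuotientGroup.map V.toSubgroup W.toSubgroup (MonoidHom.id G) h)
  add_mem' := fun {x y} hx hy V W h => by
    rw [Pi.add_apply, Pi.add_apply, ← hx V W h, ← hy V W h, MonoidAlgebra.mapDomain_add]
  zero_mem' := fun V W h => MonoidAlgebra.mapDomain_zero _
  neg_mem' := fun {x} hx V W h => by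
    rw [Pi.neg_apply, Pi.neg_apply, ← hx V W h]
    exact map_neg (MonoidAlgebra.mapDomainRingHom k
      (QuotientGroup.map V.toSubgroup W.toSubgroup (MonoidHom.id G) h)) (x V)

/-- The completed group algebra `k[[G]]`. -/
def Iw (k G : Type) [Field k] [Group G] [TopologicalSpace G] : Type := Lim k G

noncomputable instance instRingIw (k G : Type) [Field k] [Group G] [TopologicalSpace G] :
    Ring (Iw k G) :=
  (Lim k G).toRing

/-- The element `g` of `G` seen in `k[[G]]`. -/
noncomputable def el (k : Type) {G : Type} [Field k] [Group G] [TopologicalSpace G] (g : G) :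
    Iw k G :=
  ⟨fun V => MonoidAlgebra.single (g : G ⧸ V.toSubgroup) 1, fun _ _ _ =>
    MonoidAlgebra.mapDomain_single⟩

/-- `k[[U]]` inside `k[[G]]`: the elements whose image in every `k[G/V]` is supported on the
classes of elements of `U`. -/
def sub (k : Type) {G : Type} [Field k] [Group G] [TopologicalSpace G] (U : Set G) :
    Set (Iw k G) :=
  {x | ∀ (V : OpenNormalSubgroup G) (q : G ⧸ V.toSubgroup), (x.1 V).coeff q ≠ 0 →
    ∃ u ∈ U, (u : G ⧸ V.toSubgroup) = q}

/-- The elements of `G` that commute with an open normal subgroup modulo `P`; here `e` maps `G` to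
the ring. -/
def Delta {G R : Type} [Group G] [TopologicalSpace G] [Ring R] (e : G → R) (P : TwoSidedIdeal R) :
    Set G :=
  {g | ∃ V : OpenNormalSubgroup G, ∀ u ∈ V.toSubgroup, e (g * u * g⁻¹ * u⁻¹) - 1 ∈ P}

/-- `P` is generated by its intersection with `S`, as a right ideal and as a left ideal. -/
def GenBy {R : Type} [Ring R] (P : TwoSidedIdeal R) (S : Set R) : Prop :=
  (Submodule.span Rᵐᵒᵖ ((P : Set R) ∩ S) : Set R) = P ∧
  (Submodule.span R ((P : Set R) ∩ S) : Set R) = P

/-- Prime two-sided ideal of a ring. -/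
def IsPrime {R : Type} [Ring R] (P : TwoSidedIdeal R) : Prop :=
  P ≠ ⊤ ∧ ∀ a b, (∀ x, a * x * b ∈ P) → a ∈ P ∨ b ∈ P

end Pool.Agent.P.MP_7cb106_nt.QN
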